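import Pool.Agent.Helper50.MB.Goals

/-!
Project MB, packet CON.
-/

namespace Pool.Agent.Helper80.MB

open Pool.Agent.Helper50.MB

theorem up_dn {p s : ℤ} (h1 : s ≠ p) (h2 : s ≠ p + 1) : up p (dn p s) = s := by
  unfold up dn
  split_ifs <;> omega

theorem dn_up (p x : ℤ) : dn p (up p x) = x := by
  unfold up dn
  split_ifs <;> omega

theorem up_ne (p x : ℤ) : up p x ≠ p ∧ up p x ≠ p + 1 := by
  unfold up
  split_ifs <;> omega

theorem goalCON : CON := by
  intro l h p a r ha hl hh hap hrp hr hrr hci
  have hrp1 : r (p + 1) = p := by rw [← hrp, hr]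
  have hane : a p ≠ p := ha.ne p hl (by omega)
  have hane1 : a (p + 1) ≠ p + 1 := ha.ne (p + 1) (by omega) hh
  have hap1 : a (p + 1) ≠ p := by
    intro h1
    apply hap
    rw [← h1, ha.inv, h1]
  let θ : ℤ → ℤ := fun y => if y = p ∨ y = p + 1 then dn p (a p) else dn p y
  have hθ1 : ∀ y, y ≠ p → y ≠ p + 1 → θ y = dn p y := by
    intro y h1 h2
    simp only [θ]
    rw [if_neg]
    omega
  have hθp : θ p = dn p (a p) := by simp [θ]
  have hθp1 : θ (p + 1) = dn p (a p) := by simp [θ]
  have stepA : ∀ s, Conn (ctr p a) (fun z => dn p (r (up p z))) (θ s) (θ (a s)) := by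
    intro s
    by_cases h1 : s = p
    · subst h1
      rw [hθp, hθ1 (a s) hane hap]
      exact Relation.ReflTransGen.refl
    by_cases h2 : s = p + 1
    · subst h2
      rw [hθp1, hθ1 (a (p + 1)) hap1 hane1]
      apply Relation.ReflTransGen.single
      left
      unfold ctr
      rw [up_dn hane hap, ha.inv, if_pos rfl]
    by_cases h3 : a s = p
    · have h4 : s = a p := by rw [← h3, ha.inv]
      rw [h3, hθp, ← h4, hθ1 s h1 h2]
      exact Relation.ReflTransGen.refl
    by_cases h5 : a s = p + 1
    · have h4 : s = a (p + 1) := by rw [← h5, ha.inv]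
      rw [h5, hθp1, hθ1 s h1 h2]
      apply Relation.ReflTransGen.single
      left
      unfold ctr
      rw [up_dn h1 h2, if_neg h3, if_pos h5]
    · rw [hθ1 s h1 h2, hθ1 (a s) h3 h5]
      apply Relation.ReflTransGen.single
      left
      unfold ctr
      rw [up_dn h1 h2, if_neg h3, if_neg h5]
  have stepR : ∀ s, Conn (ctr p a) (fun z => dn p (r (up p z))) (θ s) (θ (r s)) := by
    intro s
    by_cases h1 : s = p
    · subst h1
      rw [hrp, hθp, hθp1]
      exact Relation.ReflTransGen.refl
    by_cases h2 : s = p + 1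
    · subst h2
      rw [hrp1, hθp, hθp1]
      exact Relation.ReflTransGen.refl
    · have h3 : r s ≠ p := by
        intro h4
        apply h2
        rw [← hr s, h4, hrp]
      have h5 : r s ≠ p + 1 := by
        intro h4
        apply h1
        rw [← hr s, h4, hrp1]
      rw [hθ1 s h1 h2, hθ1 (r s) h3 h5]
      apply Relation.ReflTransGen.single
      right
      show dn p (r s) = dn p (r (up p (dn p s)))
      rw [up_dn h1 h2]
  have path : ∀ x y, Conn a r x y → Conn (ctr p a) (fun z => dn p (r (up p z))) (θ x) (θ y) := by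
    intro x y hxy
    induction hxy with
    | refl => exact Relation.ReflTransGen.refl
    | tail _ hst ih =>
      rcases hst with rfl | rfl
      · exact ih.trans (stepA _)
      · exact ih.trans (stepR _)
  intro x y hx1 hx2 hy1 hy2
  have rx : l ≤ up p x ∧ up p x < h := by
    unfold up
    split_ifs <;> omega
  have ry : l ≤ up p y ∧ up p y < h := by
    unfold up
    split_ifs <;> omega
  have h1 := path _ _ (hci (up p x) (up p y) rx.1 rx.2 ry.1 ry.2)
  rw [hθ1 _ (up_ne p x).1 (up_ne p x).2, hθ1 _ (up_ne p y).1 (up_ne p y).2, dn_up, dn_up] at h1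
  exact h1

end Pool.Agent.Helper80.MB
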