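import Pool.Agent.Helper80.MB.CONt

/-!
Project MB, packet CTR.
-/

namespace Pool.Agent.Helper80.MB

open Pool.Agent.Helper50.MB

theorem crs {l h : ℤ} {a : ℤ → ℤ} (ha : NCI l h a) (u v : ℤ) :
    (u < v → v < a u → a v < a u) ∧ (a u < v → v < u → a v < u) ∧
    (u < a v → a v < a u → v < a u) ∧ (a u < a v → a v < u → v < u) := by
  refine ⟨ha.nc u v, ?_, ?_, ?_⟩
  · have := ha.nc (a u) v
    rwa [ha.inv] at this
  · have := ha.nc u (a v)
    rwa [ha.inv] at this
  · have := ha.nc (a u) (a v)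
    rwa [ha.inv, ha.inv] at this

/-- The matching with the arcs of `p` and `p + 1` joined. -/
def ast (p : ℤ) (a : ℤ → ℤ) (y : ℤ) : ℤ :=
  if a y = p then a (p + 1) else if a y = p + 1 then a p else a y

theorem ctr_eq (p : ℤ) (a : ℤ → ℤ) (z : ℤ) : ctr p a z = dn p (ast p a (up p z)) := rfl

theorem ast_cases (p : ℤ) (a : ℤ → ℤ) (y : ℤ) :
    (a y = p ∧ ast p a y = a (p + 1)) ∨ (a y = p + 1 ∧ ast p a y = a p) ∨
      (a y ≠ p ∧ a y ≠ p + 1 ∧ ast p a y = a y) := by
  unfold ast
  split_ifs with h1 h2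
  · exact Or.inl ⟨h1, rfl⟩
  · exact Or.inr (Or.inl ⟨h2, rfl⟩)
  · exact Or.inr (Or.inr ⟨h1, h2, rfl⟩)

theorem ctr_key {l h p : ℤ} {a : ℤ → ℤ} (ha : NCI l h a) (hane : a p ≠ p) (hap : a p ≠ p + 1)
    (hane1 : a (p + 1) ≠ p + 1) (hap1 : a (p + 1) ≠ p) {X Y : ℤ} (hX : X ≠ p ∧ X ≠ p + 1)
    (hY : Y ≠ p ∧ Y ≠ p + 1) (h1 : X < Y) (h2 : Y < ast p a X) : ast p a Y < ast p a X := by
  obtain ⟨hX1, hX2⟩ := hX
  obtain ⟨hY1, hY2⟩ := hY
  have eqv : ∀ u v, a u = v → a v = u := by
    intro u v h1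
    rw [← h1, ha.inv]
  rcases ast_cases p a X with ⟨h3, h4⟩ | ⟨h3, h4⟩ | ⟨h3, h3', h4⟩
  · have e := eqv _ _ h3
    rw [h4] at h2 ⊢
    rcases ast_cases p a Y with ⟨h5, h6⟩ | ⟨h5, h6⟩ | ⟨h5, h5', h6⟩
    · have := eqv _ _ h5
      omega
    · have := eqv _ _ h5
      omega
    · rw [h6]
      have f1 := ha.nc X Y h1
      have f2 := ha.nc (p + 1) Y
      have f3 := (crs ha X (p + 1)).2.2.1
      have f4 := ha.nc p (p + 1) (by omega)
      rw [h3] at f1 f3
      rw [e] at f4
      clear eqv ha h4 h6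
      generalize a (p + 1) = q at *
      generalize a Y = r at *
      omega
  · have e := eqv _ _ h3
    rw [h4] at h2 ⊢
    rcases ast_cases p a Y with ⟨h5, h6⟩ | ⟨h5, h6⟩ | ⟨h5, h5', h6⟩
    · have := eqv _ _ h5
      omega
    · have := eqv _ _ h5
      omega
    · rw [h6]
      have f1 := ha.nc X Y h1
      have f2 := ha.nc p Y
      have f3 := ha.nc X p
      have f4 := (crs ha Y p).2.2.1
      have f5 : a Y ≠ a p := by
        intro h7
        apply hY1
        rw [← ha.inv Y, h7, ha.inv]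
      rw [h3] at f1 f3
      clear eqv ha h4 h6
      generalize a p = q at *
      generalize a Y = r at *
      omega
  · rw [h4] at h2 ⊢
    have f1 := ha.nc X Y h1 h2
    rcases ast_cases p a Y with ⟨h5, h6⟩ | ⟨h5, h6⟩ | ⟨h5, h5', h6⟩
    · have e := eqv _ _ h5
      rw [h6]
      have f2 := ha.nc p X
      have f3 := ha.nc X (p + 1)
      rw [h5] at f1
      rw [e] at f2
      clear eqv ha h4 h6
      generalize a (p + 1) = q at *
      generalize a X = r at *
      omega
    · have e := eqv _ _ h5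
      rw [h6]
      have f2 := ha.nc (p + 1) X
      have f3 := ha.nc X p
      rw [h5] at f1
      rw [e] at f2
      clear eqv ha h4 h6
      generalize a p = q at *
      generalize a X = r at *
      omega
    · rw [h6]
      exact f1

theorem goalCTR : CTR := by
  intro l h p a ha hl hh hap
  have hane : a p ≠ p := ha.ne p hl (by omega)
  have hane1 : a (p + 1) ≠ p + 1 := ha.ne (p + 1) (by omega) hh
  have hap1 : a (p + 1) ≠ p := by
    intro h1
    apply hap
    rw [← h1, ha.inv, h1]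
  have eqv : ∀ u v, a u = v → a v = u := by
    intro u v h1
    rw [← h1, ha.inv]
  have astne : ∀ y, y ≠ p → y ≠ p + 1 → ast p a y ≠ p ∧ ast p a y ≠ p + 1 := by
    intro y h1 h2
    rcases ast_cases p a y with ⟨h3, h4⟩ | ⟨h3, h4⟩ | ⟨h3, h3', h4⟩
    · rw [h4]
      exact ⟨hap1, hane1⟩
    · rw [h4]
      exact ⟨hane, hap⟩
    · rw [h4]
      exact ⟨h3, h3'⟩
  have astast : ∀ y, y ≠ p → y ≠ p + 1 → ast p a (ast p a y) = y := by
    intro y h1 h2
    rcases ast_cases p a y with ⟨h3, h4⟩ | ⟨h3, h4⟩ | ⟨h3, h3', h4⟩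
    · rw [h4]
      unfold ast
      rw [ha.inv, if_neg (by omega), if_pos rfl]
      exact eqv _ _ h3
    · rw [h4]
      unfold ast
      rw [ha.inv, if_pos rfl]
      exact eqv _ _ h3
    · rw [h4]
      unfold ast
      rw [ha.inv, if_neg h1, if_neg h2]
  have upctr : ∀ z, up p (ctr p a z) = ast p a (up p z) := by
    intro z
    have h1 := astne (up p z) (up_ne p z).1 (up_ne p z).2
    rw [ctr_eq, up_dn h1.1 h1.2]
  refine ⟨⟨?_, ?_, ?_, ?_⟩, ?_⟩
  · intro z
    rw [ctr_eq p a (ctr p a z), upctr, astast _ (up_ne p z).1 (up_ne p z).2, dn_up]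
  · intro z hz
    have h1 : up p z < l ∨ h ≤ up p z := by
      unfold up
      split_ifs <;> omega
    have h2 := ha.out _ h1
    have h3 : ast p a (up p z) = up p z := by
      unfold ast
      rw [h2, if_neg (up_ne p z).1, if_neg (up_ne p z).2]
    rw [ctr_eq, h3, dn_up]
  · intro z hz1 hz2 hcon
    have h1 : up p z = ast p a (up p z) := by rw [← upctr, hcon]
    have hr : l ≤ up p z ∧ up p z < h := by
      unfold up
      split_ifs <;> omega
    rcases ast_cases p a (up p z) with ⟨h3, h4⟩ | ⟨h3, h4⟩ | ⟨h3, h3', h4⟩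
    · have h5 := eqv _ _ (h4.symm.trans h1.symm)
      omega
    · have h5 := eqv _ _ (h4.symm.trans h1.symm)
      omega
    · exact ha.ne _ hr.1 hr.2 (h4.symm.trans h1.symm)
  · intro x y hxy hyx
    have h1 : up p x < up p y := by
      unfold up
      split_ifs <;> omega
    have h2 : up p y < ast p a (up p x) := by
      rw [← upctr]
      unfold up
      split_ifs <;> omega
    have key : ast p a (up p y) < ast p a (up p x) :=
      ctr_key ha hane hap hane1 hap1 (up_ne p x) (up_ne p y) h1 h2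
    have h3 := astne (up p x) (up_ne p x).1 (up_ne p x).2
    have h4 := astne (up p y) (up_ne p y).1 (up_ne p y).2
    rw [ctr_eq, ctr_eq]
    unfold dn
    split_ifs <;> omega
  · intro z h1 h2 h3 h4
    rw [ctr_eq, up_dn h1 h2]
    unfold ast
    rw [if_neg h3, if_neg h4]

end Pool.Agent.Helper80.MB
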