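import Pool.Agent.Helper50.MB.Goals

/-!
Project MB, packet DEC.
-/

namespace Pool.Agent.Helper80.MB

open Pool.Agent.Helper50.MB

theorem mono_eq (A : Finset ℕ) (f g : ℕ → ℕ) (hf : ∀ x ∈ A, ∀ y ∈ A, x < y → f x < f y)
    (hg : ∀ x ∈ A, ∀ y ∈ A, x < y → g x < g y) (him : A.image f = A.image g) :
    ∀ x, x ∈ A → f x = g x := by
  intro x
  induction x using Nat.strong_induction_on with
  | _ x ih =>
    intro hx
    have h1 : g x ∈ A.image f := by
      rw [him]
      exact Finset.mem_image_of_mem g hx
    have h2 : f x ∈ A.image g := by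
      rw [← him]
      exact Finset.mem_image_of_mem f hx
    obtain ⟨z, hz, hz2⟩ := Finset.mem_image.1 h1
    obtain ⟨w, hw, hw2⟩ := Finset.mem_image.1 h2
    have h3 : f x ≤ g x := by
      rcases lt_trichotomy z x with h | h | h
      · have := ih z h hz
        have := hg z hz x hx h
        omega
      · subst h
        omega
      · have := hf x hx z hz h
        omega
    have h4 : g x ≤ f x := by
      rcases lt_trichotomy w x with h | h | h
      · have := ih w h hw
        have := hf w hw x hx h
        omega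
      · subst h
        omega
      · have := hg x hx w hw h
        omega
    omega

theorem lft_cr (io : ℕ → ℕ) (z : ℤ) :
    lft io z = if 0 ≤ z then (io (cr z) : ℤ) else -1 - (io (cr z) : ℤ) := by
  unfold lft cr
  split_ifs <;> rfl

theorem lft_inj {A : Finset ℕ} {io : ℕ → ℕ} (hf : ∀ x ∈ A, ∀ y ∈ A, x < y → io x < io y)
    {z w : ℤ} (hz : cr z ∈ A) (hw : cr w ∈ A) (h : lft io z = lft io w) : z = w := by
  have hi : io (cr z) = io (cr w) → cr z = cr w := by
    intro h1
    rcases lt_trichotomy (cr z) (cr w) with h2 | h2 | h2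
    · have := hf _ hz _ hw h2
      omega
    · exact h2
    · have := hf _ hw _ hz h2
      omega
  rw [lft_cr, lft_cr] at h
  have hc : cr z = cr w → (0 ≤ z ↔ 0 ≤ w) → z = w := by
    unfold cr
    intro h1 h2
    split_ifs at h1 <;> omega
  split_ifs at h with h1 h2 h2
  · exact hc (hi (by omega)) (by simp [h1, h2])
  · omega
  · omega
  · exact hc (hi (by omega)) (by simp [h1, h2])

theorem lft_congr {A : Finset ℕ} {io io' : ℕ → ℕ} (h : ∀ x, x ∈ A → io x = io' x) {z : ℤ}
    (hz : cr z ∈ A) : lft io z = lft io' z := by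
  rw [lft_cr, lft_cr, h _ hz]

theorem goalDEC : DEC := by
  intro N N1 N2 A a a' b1 b2 io1 io1' io2 io2' hA ha ha' h1 h1' h2 h2' him1 him2 hcuts
  have e1 := mono_eq A io1 io1' h1.mono h1'.mono him1
  have e2 := mono_eq (Finset.range N \ A) io2 io2' h2.mono h2'.mono him2
  have rng : ∀ (b : ℤ → ℤ), SZ N b → ∀ z, -(N : ℤ) ≤ z → z < N → -(N : ℤ) ≤ b z ∧ b z < N := by
    intro b hb z hz1 hz2
    by_contra hcon
    have h3 := hb.nci.out (b z) (by omega)
    rw [hb.nci.inv] at h3
    omega
  have crN : ∀ z : ℤ, -(N : ℤ) ≤ z → z < N → cr z < N := by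
    intro z hz1 hz2
    unfold cr
    split_ifs <;> omega
  have memB : ∀ z : ℤ, -(N : ℤ) ≤ z → z < N → cr z ∉ A → cr z ∈ Finset.range N \ A := by
    intro z hz1 hz2 hz3
    rw [Finset.mem_sdiff, Finset.mem_range]
    exact ⟨crN z hz1 hz2, hz3⟩
  funext z
  by_cases hz : z < -(N : ℤ) ∨ (N : ℤ) ≤ z
  · rw [ha.nci.out z hz, ha'.nci.out z hz]
  · have hz1 : -(N : ℤ) ≤ z := by omega
    have hz2 : z < N := by omega
    have ra := rng a ha z hz1 hz2
    have ra' := rng a' ha' z hz1 hz2
    by_cases hzA : cr z ∈ A
    · by_cases haz : cr (a z) ∈ A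
      · have haz' : cr (a' z) ∈ A := by
          by_contra hcon
          have : (z, a' z) ∈ cuts a' A := ⟨rfl, hzA, hcon⟩
          rw [← hcuts] at this
          have h3 : a' z = a z := this.1
          rw [h3] at hcon
          exact hcon haz
        have h3 := h1.arcs z hzA haz
        have h4 := h1'.arcs z hzA haz'
        rw [← lft_congr e1 hzA, h3, ← lft_congr e1 haz'] at h4
        exact lft_inj h1.mono haz haz' h4
      · have : (z, a z) ∈ cuts a A := ⟨rfl, hzA, haz⟩
        rw [hcuts] at this
        exact this.1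
    · by_cases haz : cr (a z) ∈ A
      · have : (a z, z) ∈ cuts a A := ⟨(ha.nci.inv z).symm, haz, hzA⟩
        rw [hcuts] at this
        have h3 : z = a' (a z) := this.1
        have h4 := ha'.nci.inv (a z)
        rw [← h3] at h4
        exact h4.symm
      · have haz' : cr (a' z) ∉ A := by
          intro hcon
          have : (a' z, z) ∈ cuts a' A := ⟨(ha'.nci.inv z).symm, hcon, hzA⟩
          rw [← hcuts] at this
          have h3 : z = a (a' z) := this.1
          have h4 := ha.nci.inv (a' z)
          rw [← h3] at h4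
          rw [← h4] at hcon
          exact haz hcon
        have m1 := memB z hz1 hz2 hzA
        have m2 := memB (a z) ra.1 ra.2 haz
        have m3 := memB (a' z) ra'.1 ra'.2 haz'
        have h3 := h2.arcs z m1 m2
        have h4 := h2'.arcs z m1 m3
        rw [← lft_congr e2 m1, h3, ← lft_congr e2 m3] at h4
        exact lft_inj h2.mono m2 m3 h4

end Pool.Agent.Helper80.MB
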