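import Pool.Agent.Helper50.MB.Goals

/-!
Project MB, packet TRZ.
-/

namespace Pool.Agent.Helper80.MB

open Pool.Agent.Helper50.MB

/-- Restriction of a map to an interval which it preserves. -/
def rstr {l h : ℤ} (f : ℤ → ℤ) (hf : ∀ z, l ≤ z → z < h → l ≤ f z ∧ f z < h)
    (y : {z : ℤ // l ≤ z ∧ z < h}) : {z : ℤ // l ≤ z ∧ z < h} :=
  ⟨f y.1, hf y.1 y.2.1 y.2.2⟩

theorem rstr_conn {l h : ℤ} {a r : ℤ → ℤ} (ha : ∀ z, l ≤ z → z < h → l ≤ a z ∧ a z < h)
    (hr : ∀ z, l ≤ z → z < h → l ≤ r z ∧ r z < h)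
    (H : ∀ x y, Relation.ReflTransGen (fun s t => t = rstr a ha s ∨ t = rstr r hr s) x y) :
    CI l h a r := by
  intro x y hx1 hx2 hy1 hy2
  have h1 := H ⟨x, hx1, hx2⟩ ⟨y, hy1, hy2⟩
  have h2 : ∀ s t, Relation.ReflTransGen (fun s t => t = rstr a ha s ∨ t = rstr r hr s) s t →
      Conn a r s.1 t.1 := by
    intro s t h3
    induction h3 with
    | refl => exact Relation.ReflTransGen.refl
    | @tail b c h4 h5 ih =>
      refine ih.tail ?_
      rcases h5 with h5 | h5
      · left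
        rw [h5]
        rfl
      · right
        rw [h5]
        rfl
  exact h2 _ _ h1

theorem conn_rstr {l h : ℤ} {a r : ℤ → ℤ} (ha : ∀ z, l ≤ z → z < h → l ≤ a z ∧ a z < h)
    (hr : ∀ z, l ≤ z → z < h → l ≤ r z ∧ r z < h) (H : CI l h a r) :
    ∀ x y, Relation.ReflTransGen (fun s t => t = rstr a ha s ∨ t = rstr r hr s) x y := by
  intro x y
  have h1 := H x.1 y.1 x.2.1 x.2.2 y.2.1 y.2.2
  have h2 : ∀ u, Conn a r x.1 u → ∃ hu : l ≤ u ∧ u < h,
      Relation.ReflTransGen (fun s t => t = rstr a ha s ∨ t = rstr r hr s) x ⟨u, hu⟩ := by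
    intro u hu
    induction hu with
    | refl => exact ⟨x.2, Relation.ReflTransGen.refl⟩
    | @tail b c h3 h4 ih =>
      obtain ⟨hb, ih⟩ := ih
      rcases h4 with h4 | h4
      · subst h4
        exact ⟨ha b hb.1 hb.2, ih.tail (Or.inl rfl)⟩
      · subst h4
        exact ⟨hr b hb.1 hb.2, ih.tail (Or.inr rfl)⟩
  obtain ⟨hu, h3⟩ := h2 y.1 h1
  exact h3

theorem goalTRZ (hTRI : TRI) (hPAR : PAR) : TRZ := by
  intro N i a hS hi
  have hin : ∀ z, -(N : ℤ) ≤ z → z < N → -(N : ℤ) ≤ a z ∧ a z < N := by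
    intro z h1 h2
    by_contra h3
    have h4 := hS.nci.out (a z) (by omega)
    rw [hS.nci.inv] at h4
    exact hS.nci.ne z h1 h2 h4.symm
  have hr : ∀ z : ℤ, -(N : ℤ) ≤ z → z < N → -(N : ℤ) ≤ (fun z => -1 - z) z ∧
      (fun z => -1 - z) z < (N : ℤ) := by
    intro z h1 h2
    constructor
    · show -(N : ℤ) ≤ -1 - z
      omega
    · show -1 - z < (N : ℤ)
      omega
  have hr4 : ∀ z : ℤ, -(N : ℤ) ≤ z → z < N → -(N : ℤ) ≤ r4 i z ∧ r4 i z < (N : ℤ) := by
    intro z h1 h2
    unfold r4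
    split_ifs <;> omega
  have hr5 : ∀ z : ℤ, -(N : ℤ) ≤ z → z < N → -(N : ℤ) ≤ r5 i z ∧ r5 i z < (N : ℤ) := by
    intro z h1 h2
    unfold r5
    split_ifs <;> omega
  have hpar := hPAR _ _ a hS.nci
  have hfin : Finite {z : ℤ // -(N : ℤ) ≤ z ∧ z < N} := by
    have h1 : ((Set.Ico (-(N : ℤ)) N) : Set ℤ).Finite := Set.finite_Ico _ _
    exact h1.to_subtype
  have hc := conn_rstr hin hr hS.con
  have key := hTRI {z : ℤ // -(N : ℤ) ≤ z ∧ z < N} (rstr a hin) (rstr (fun z => -1 - z) hr)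
    (rstr (r4 i) hr4) (rstr (r5 i) hr5) (fun y => decide ((y.1 + i) % 2 = 0))
    ⟨(i : ℤ), by omega⟩ ⟨-2 - (i : ℤ), by omega⟩ ⟨(i : ℤ) + 2, by omega⟩
    (fun y => Subtype.ext (hS.nci.inv y.1))
    (fun y => Subtype.ext (by
      show (-1 : ℤ) - (-1 - y.1) = y.1
      omega))
    (fun y => by
      have h1 := hpar y.1 y.2.1 y.2.2
      show decide ((a y.1 + i) % 2 = 0) = !decide ((y.1 + i) % 2 = 0)
      rw [← decide_not]
      apply decide_eq_decide.2
      omega)
    (fun y => by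
      show decide ((-1 - y.1 + i) % 2 = 0) = !decide ((y.1 + i) % 2 = 0)
      rw [← decide_not]
      apply decide_eq_decide.2
      omega)
    (by
      show decide (((i : ℤ) + i) % 2 = 0) = true
      apply decide_eq_true
      omega)
    (by
      show decide ((-2 - (i : ℤ) + i) % 2 = 0) = true
      apply decide_eq_true
      omega)
    (by
      show decide (((i : ℤ) + 2 + i) % 2 = 0) = true
      apply decide_eq_true
      omega)
    (fun h => by
      have := congrArg Subtype.val h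
      simp only at this
      omega)
    (fun h => by
      have := congrArg Subtype.val h
      simp only at this
      omega)
    (fun h => by
      have := congrArg Subtype.val h
      simp only at this
      omega)
    hc
    (fun y h1 h2 h3 h4 h5 h6 => by
      have g1 : y.1 ≠ i := fun h => h1 (Subtype.ext h)
      have g2 : y.1 ≠ -2 - (i : ℤ) := fun h => h2 (Subtype.ext h)
      have g3 : y.1 ≠ (i : ℤ) + 2 := fun h => h3 (Subtype.ext h)
      have g4 : y.1 ≠ -1 - (i : ℤ) := fun h => h4 (Subtype.ext h)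
      have g5 : y.1 ≠ -1 - (-2 - (i : ℤ)) := fun h => h5 (Subtype.ext h)
      have g6 : y.1 ≠ -1 - ((i : ℤ) + 2) := fun h => h6 (Subtype.ext h)
      apply Subtype.ext
      show r4 i y.1 = -1 - y.1
      unfold r4
      split_ifs <;> omega)
    (Subtype.ext (by
      show r4 i (i : ℤ) = -1 - (-2 - (i : ℤ))
      unfold r4
      split_ifs <;> omega))
    (Subtype.ext (by
      show r4 i (-1 - (-2 - (i : ℤ))) = (i : ℤ)
      unfold r4
      split_ifs <;> omega))
    (Subtype.ext (by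
      show r4 i (-2 - (i : ℤ)) = -1 - ((i : ℤ) + 2)
      unfold r4
      split_ifs <;> omega))
    (Subtype.ext (by
      show r4 i (-1 - ((i : ℤ) + 2)) = -2 - (i : ℤ)
      unfold r4
      split_ifs <;> omega))
    (Subtype.ext (by
      show r4 i ((i : ℤ) + 2) = -1 - (i : ℤ)
      unfold r4
      split_ifs <;> omega))
    (Subtype.ext (by
      show r4 i (-1 - (i : ℤ)) = (i : ℤ) + 2
      unfold r4
      split_ifs <;> omega))
    (fun y h1 h2 h3 h4 h5 h6 => by
      have g1 : y.1 ≠ i := fun h => h1 (Subtype.ext h)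
      have g2 : y.1 ≠ -2 - (i : ℤ) := fun h => h2 (Subtype.ext h)
      have g3 : y.1 ≠ (i : ℤ) + 2 := fun h => h3 (Subtype.ext h)
      have g4 : y.1 ≠ -1 - (i : ℤ) := fun h => h4 (Subtype.ext h)
      have g5 : y.1 ≠ -1 - (-2 - (i : ℤ)) := fun h => h5 (Subtype.ext h)
      have g6 : y.1 ≠ -1 - ((i : ℤ) + 2) := fun h => h6 (Subtype.ext h)
      apply Subtype.ext
      show r5 i y.1 = -1 - y.1
      unfold r5
      split_ifs <;> omega)
    (Subtype.ext (by
      show r5 i (i : ℤ) = -1 - ((i : ℤ) + 2)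
      unfold r5
      split_ifs <;> omega))
    (Subtype.ext (by
      show r5 i (-1 - ((i : ℤ) + 2)) = (i : ℤ)
      unfold r5
      split_ifs <;> omega))
    (Subtype.ext (by
      show r5 i (-2 - (i : ℤ)) = -1 - (i : ℤ)
      unfold r5
      split_ifs <;> omega))
    (Subtype.ext (by
      show r5 i (-1 - (i : ℤ)) = -2 - (i : ℤ)
      unfold r5
      split_ifs <;> omega))
    (Subtype.ext (by
      show r5 i ((i : ℤ) + 2) = -1 - (-2 - (i : ℤ))
      unfold r5
      split_ifs <;> omega))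
    (Subtype.ext (by
      show r5 i (-1 - (-2 - (i : ℤ))) = (i : ℤ) + 2
      unfold r5
      split_ifs <;> omega))
  rcases key with h | h
  · exact Or.inr (rstr_conn hin hr4 h)
  · exact Or.inl (rstr_conn hin hr5 h)

end Pool.Agent.Helper80.MB
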